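import Mathlib
import Pool.Agent.Helper647.MM.NegSide
import Pool.Agent.Helper647.MM.PosSide

set_option linter.dupNamespace false

open Set Topology

namespace Pool.Agent.Results.MP_d61ec6_gt.BothSides

open Pool.Agent.Helper647.MM
open Pool.Agent.Helper647.FU (PFA)
open Pool.Agent.Helper647.GR.ForceCH (OmegaOnePreserved DiamondHolds)

/-- Main result (the question is independent of ZFC).

1. There is a notion of forcing all of whose conditions force that `ω₁` is preserved and that
   diamond holds.
2. Diamond gives a monolithic non-metrizable compact space `X` with `p(C_p(X)) = ω`.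
3. The proper forcing axiom implies that every monolithic compact space `X` with
   `p(C_p(X)) = ω` is metrizable. -/
theorem result :
    (∃ (P : Type) (_ : Preorder P), Nonempty P ∧ ∀ p : P,
      p ∈ OmegaOnePreserved P ∧ p ∈ DiamondHolds P) ∧
    (Diamond → ∃ (X : Type) (_ : TopologicalSpace X), CompactSpace X ∧ T2Space X ∧
      Monolithic X ∧ CountablePointFiniteCellularity X ∧
      ¬ TopologicalSpace.MetrizableSpace X) ∧
    (PFA → ∀ (X : Type) [TopologicalSpace X] [CompactSpace X] [T2Space X],
      Monolithic X → CountablePointFiniteCellularity X → TopologicalSpace.MetrizableSpace X) := by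
  refine ⟨?_, counterexample, fun hPFA X _ _ _ hm hp => Pos.positive hPFA X hm hp⟩
  obtain ⟨P, hP, hne, h⟩ := Pool.Agent.Helper647.GR.ForceCH.exists_forcing
  exact ⟨P, hP, hne, fun p => ⟨(h p).1, (h p).2.1⟩⟩

end Pool.Agent.Results.MP_d61ec6_gt.BothSides
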